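import Pool.Agent.TH141.QuadI
import Pool.Agent.H824.DaffF

/-!
# The odd-dimensional smooth quadrics are `D`-affine in every positive characteristic

Over an algebraically closed field `k` of any characteristic `p > 0`, the smooth quadric `V` of
dimension `2m + 1` in the projective space of dimension `2m + 2` has no higher cohomology of the
sheaf of differential operators `D_V = ⋃ₑ End_{O^(p^e)}(O)`, in the form of the Čech cohomology for
a finite covering of `V` by the affine open sets where a homogeneous coordinate does not vanish.
No relation between `p` and `m` is assumed.

For odd `p` the quadric is `f = x_1² + ... + x_N² = 0`, `N = 2m + 3`. A cocycle of differential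
operators on `V` is lifted to operators `G_s` of degree zero on Laurent polynomials, with operators
`H_s` such that `G_s (f z) = f H_s z`. The coboundary of the family `G_s` is corrected by means of
the Čech acyclicity of the operators of degree `> -N` on the affine space; the only obstruction is,
in Čech degree one, the class of an operator of degree two in `D / (f D + D f)`, where `D` is the
ring of the differential operators of the affine space with polynomial coefficients. A Frobenius
descent replaces the weight `t` of such a class by `t / p`, and `t` is an odd integer, hence not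
zero, because `N` is odd; so after finitely many steps the class is zero. The descent uses that, in
`k[x] / (x_i ^ p)`, below the middle degree the kernel of the multiplication by `f` is contained in
its image, and the dual statement above the middle degree.
-/

namespace Pool.Agent.Results.MP_71be78_ag.AllPrimes

open MvPolynomial Pool.Agent.H824 Pool.Agent.TH141

theorem result (p : ℕ) [hp : Fact p.Prime] (k : Type) [Field k] [IsAlgClosed k] [CharP k p]
    (m : ℕ) :
    ∃ (ι : Type) (_ : Fintype ι) (V : ProjVariety k ι) (Q : MvPolynomial ι k)
      (τ : Type) (_ : Fintype τ) (c : τ → ι),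
      Fintype.card ι = 2 * m + 3 ∧ Q.IsHomogeneous 2 ∧ V.ideal = Ideal.span {Q} ∧
      V.dim = 2 * m + 1 ∧ V.IsSmooth ∧
      (∀ z ∈ V.points, ∃ a, z (c a) ≠ 0) ∧
      ∀ i, V.DiffVanishing c p i := by
  by_cases hp2 : p = 2
  · subst hp2
    obtain ⟨V, h1, h2, h3, h4, h5⟩ := daff_main k m
    refine ⟨QVar m, inferInstance, V, quadForm k m, Fin (m + 1) × Fin 2, inferInstance, xyIdx m,
      ?_, ?_, h1, h2, h3, h4, h5⟩
    · have h : Fintype.card (QVar m) = Fintype.card (Option (Fin (m + 1) × Fin 2)) := rfl
      rw [h]
      simp
      ring
    · unfold quadForm
      apply IsHomogeneous.add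
      · exact (isHomogeneous_X k _).pow 2
      · apply IsHomogeneous.sum
        intro i _
        exact (isHomogeneous_X k _).mul (isHomogeneous_X k _)
  · have h2 : (2 : k) ≠ 0 := by
      intro h
      have h3 : ((2 : ℕ) : k) = 0 := by exact_mod_cast h
      have h4 := (CharP.cast_eq_zero_iff k p 2).mp h3
      exact hp2 ((Nat.prime_dvd_prime_iff_eq hp.out Nat.prime_two).mp h4)
    refine ⟨Fin (2 * m + 3), inferInstance, quadV k h2 (2 * m), sqF k (2 * m + 3),
      Fin (2 * m + 3), inferInstance, id, Fintype.card_fin _, sqF_homog _, rfl,
      quadV_dim h2 (2 * m), quadV_smooth h2 (2 * m), ?_, ?_⟩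
    · intro z hz
      exact Function.ne_iff.mp hz.1
    · exact fun i => quadV_vanish h2 hp2 m i

end Pool.Agent.Results.MP_71be78_ag.AllPrimes
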